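import Pool.Agent.L7h69.CS.Thin

/-!
# The moduli with a cubic residue symbol whose short sums are large are thin
-/

set_option autoImplicit false

open Finset

namespace Pool.Agent.L7h55.CC

open Pool.Agent.Results.MP_081200_nt.FewDigitCubicCharacters (Eis nm residue IsSymbol)
open Pool.Agent.Results.MP_081200_nt.GenericLinearForms (SmallSums progressionSum)
open Pool.Agent.L7h69.CS (thin_pairs)

/-- `ψ` is the cubic residue symbol of an Eisenstein integer (given by its factorization `P` into primes) of norm `q` -/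
def CubicSymbol (q : ℕ) (ψ : DirichletCharacter ℂ q) : Prop :=
  ∃ P : Multiset Eis, (∀ π ∈ P, Prime π) ∧ (nm P.prod).natAbs = q ∧
    ∀ n : ℕ, n.Coprime q → ψ (n : ZMod q) = (P.map (fun π => residue π n)).prod

/-- ALL cubic residue symbols modulo `q` have small sums over progressions in intervals up to `X` for all `X` between
`q ^ κ` and `q ^ c` -/
def GoodModulus (δ κ c : ℝ) (A q : ℕ) : Prop :=
  ¬ 3 ∣ q → ∀ ψ : DirichletCharacter ℂ q, CubicSymbol q ψ →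
    ∀ X : ℕ, (q : ℝ) ^ κ ≤ X → (X : ℝ) ≤ (q : ℝ) ^ c → ∀ k a : ℕ, 1 ≤ k →
      k ≤ X ^ A → ∀ t : ℝ, |t| ≤ (X : ℝ) ^ A → ∀ M M' : ℕ, M' ≤ X →
        ‖progressionSum ψ k a t M M'‖ ≤ (X : ℝ) ^ (1 / 2 + δ)

/-- the unit `ω ^ 2` -/
def w2 : Eisˣ where
  val := ⟨-1, -1⟩
  inv := ⟨0, 1⟩
  val_inv := by
    apply QuadraticAlgebra.ext
    · simp
      rfl
    · simp
      rfl
  inv_val := by
    apply QuadraticAlgebra.ext
    · simp
      rfl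
    · simp
      rfl

lemma assoc1 (u v : ℤ) : Associated (⟨u, v⟩ : Eis) ⟨u - v, u⟩ := by
  refine ⟨-w2, ?_⟩
  apply QuadraticAlgebra.ext
  · simp [w2]
    try ring
  · simp [w2]
    try ring

lemma assoc2 (u v : ℤ) : Associated (⟨u, v⟩ : Eis) ⟨v - u, -u⟩ := by
  refine ⟨w2, ?_⟩
  apply QuadraticAlgebra.ext
  · simp [w2]
    try ring
  · simp [w2]
    try ring

lemma assoc3 (u v : ℤ) : Associated (⟨u, v⟩ : Eis) ⟨-u, -v⟩ := by
  refine ⟨-1, ?_⟩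
  apply QuadraticAlgebra.ext
  · simp
  · simp

/-- every Eisenstein integer has an associate with nonnegative coordinates -/
lemma cone (α : Eis) : ∃ m : Fin 2 → ℕ, Associated α ⟨m 0, m 1⟩ ∧ nm ⟨m 0, m 1⟩ = nm α := by
  have key : ∀ a b : ℤ, 0 ≤ a → 0 ≤ b → Associated α ⟨a, b⟩ → nm (⟨a, b⟩ : Eis) = nm α →
      ∃ m : Fin 2 → ℕ, Associated α ⟨m 0, m 1⟩ ∧ nm ⟨m 0, m 1⟩ = nm α := by
    intro a b ha hb h1 h2
    refine ⟨![a.toNat, b.toNat], ?_⟩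
    have e : (⟨((![a.toNat, b.toNat] : Fin 2 → ℕ) 0 : ℤ), ((![a.toNat, b.toNat] : Fin 2 → ℕ) 1 : ℤ)⟩ : Eis) = ⟨a, b⟩ := by
      apply QuadraticAlgebra.ext
      · simp only [Matrix.cons_val_zero]
        exact Int.toNat_of_nonneg ha
      · simp only [Matrix.cons_val_one]
        exact Int.toNat_of_nonneg hb
    rw [e]
    exact ⟨h1, h2⟩
  obtain ⟨u, v⟩ := α
  rcases le_total 0 u with hu | hu <;> rcases le_total 0 v with hv | hv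
  · exact key u v hu hv (Associated.refl _) rfl
  · refine key (u - v) u (by omega) hu (assoc1 u v) ?_
    simp only [nm]
    ring
  · refine key (v - u) (-u) (by omega) (by omega) (assoc2 u v) ?_
    simp only [nm]
    ring
  · refine key (-u) (-v) (by omega) (by omega) (assoc3 u v) ?_
    simp only [nm]
    ring

/-- the norm and the larger coordinate -/
lemma norm_max (m : Fin 2 → ℕ) : (nm ⟨m 0, m 1⟩).natAbs ≤ (max (m 0) (m 1)) ^ 2 ∧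
    3 * (max (m 0) (m 1)) ^ 2 ≤ 4 * (nm ⟨m 0, m 1⟩).natAbs := by
  have h0 : (0 : ℤ) ≤ nm ⟨m 0, m 1⟩ := by
    simp only [nm]
    nlinarith [sq_nonneg ((m 0 : ℤ) - m 1), sq_nonneg ((m 0 : ℤ)), sq_nonneg ((m 1 : ℤ))]
  have h1 : (((nm ⟨m 0, m 1⟩).natAbs : ℕ) : ℤ) = nm ⟨m 0, m 1⟩ := Int.natAbs_of_nonneg h0
  have h2 : (nm ⟨m 0, m 1⟩ : ℤ) ≤ ((max (m 0) (m 1) : ℕ) : ℤ) ^ 2 ∧
      3 * ((max (m 0) (m 1) : ℕ) : ℤ) ^ 2 ≤ 4 * nm ⟨m 0, m 1⟩ := by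
    simp only [nm]
    rcases le_total (m 0) (m 1) with h | h
    · rw [max_eq_right h]
      have h' : (m 0 : ℤ) ≤ m 1 := by exact_mod_cast h
      have hp : (0 : ℤ) ≤ m 0 := by positivity
      constructor
      · nlinarith
      · nlinarith [sq_nonneg ((2 : ℤ) * m 0 - m 1)]
    · rw [max_eq_left h]
      have h' : (m 1 : ℤ) ≤ m 0 := by exact_mod_cast h
      have hp : (0 : ℤ) ≤ m 1 := by positivity
      constructor
      · nlinarith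
      · nlinarith [sq_nonneg ((2 : ℤ) * m 1 - m 0)]
  rw [← h1] at h2
  constructor
  · exact_mod_cast h2.1
  · exact_mod_cast h2.2

/-- from pairs to moduli -/
lemma good_of_pairs {δ κ κ₁ c : ℝ} {A q : ℕ} (hκ₁ : 0 ≤ κ₁) (hc : 0 < c) (hq1 : 1 ≤ q)
    (hq : (2 * (q : ℝ)) ^ (κ₁ / 2) ≤ (q : ℝ) ^ κ)
    (h : ∀ m : Fin 2 → ℕ, (nm ⟨m 0, m 1⟩).natAbs = q → SmallSums δ κ₁ c A m) : GoodModulus δ κ (c / 2) A q := by
  intro h3 ψ hψ X hX1 hX2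
  obtain ⟨P, hP, hPq, hPn⟩ := hψ
  obtain ⟨m, hm, hmn⟩ := cone P.prod
  have hmq : (nm ⟨m 0, m 1⟩).natAbs = q := by rw [hmn]; exact hPq
  have hs := h m hmq
  obtain ⟨b1, b2⟩ := norm_max m
  rw [hmq] at b1 b2
  have hM0 : 0 < max (m 0) (m 1) := by
    by_contra hcon
    have : max (m 0) (m 1) = 0 := by omega
    rw [this] at b1
    omega
  have hM0' : (0 : ℝ) < ((max (m 0) (m 1) : ℕ) : ℝ) := by exact_mod_cast hM0
  have hq0 : (0 : ℝ) < q := by exact_mod_cast hq1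
  have b1' : (q : ℝ) ≤ ((max (m 0) (m 1) : ℕ) : ℝ) ^ 2 := by exact_mod_cast b1
  have b2' : ((max (m 0) (m 1) : ℕ) : ℝ) ^ 2 ≤ 2 * q := by
    have : 3 * ((max (m 0) (m 1) : ℕ) : ℝ) ^ 2 ≤ 4 * q := by exact_mod_cast b2
    linarith
  subst hmq
  refine hs ?_ ψ ⟨P, hP, hm, hPn⟩ X ?_ ?_
  · intro h4
    exact h3 (Int.natCast_dvd.1 (by exact_mod_cast h4))
  · refine le_trans ?_ hX1
    refine le_trans ?_ hq
    calc ((max (m 0) (m 1) : ℕ) : ℝ) ^ κ₁ = (((max (m 0) (m 1) : ℕ) : ℝ) ^ 2) ^ (κ₁ / 2) := by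
          rw [← Real.rpow_natCast, ← Real.rpow_mul hM0'.le]
          congr 1
          push_cast
          ring
      _ ≤ _ := Real.rpow_le_rpow (by positivity) b2' (by positivity)
  · refine hX2.trans ?_
    calc (((nm ⟨m 0, m 1⟩).natAbs : ℕ) : ℝ) ^ (c / 2) ≤ (((max (m 0) (m 1) : ℕ) : ℝ) ^ 2) ^ (c / 2) :=
          Real.rpow_le_rpow (by positivity) b1' (by positivity)
      _ = _ := by
          rw [← Real.rpow_natCast, ← Real.rpow_mul hM0'.le]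
          congr 1
          push_cast
          ring

/-- **The exceptional moduli are thin.** -/
theorem mod_count {δ : ℝ} (hδ : 0 < δ) (A : ℕ) : ∃ c : ℝ, 0 < c ∧ ∀ κ : ℝ, 0 < κ → 2 * κ * A ≤ 1 → ∀ ε : ℝ, 0 < ε →
    ∃ C : ℝ, ∀ Q : ℕ, 1 ≤ Q → ({q : ℕ | 1 ≤ q ∧ q ≤ Q ∧ True ∧ ¬ GoodModulus δ κ c A q}.ncard : ℝ) ≤
      C * (Q : ℝ) ^ (1 - 2 * κ * A + ε) := by
  classical
  obtain ⟨c, hc, h⟩ := thin_pairs hδ A
  refine ⟨c / 2, by positivity, fun κ hκ hκA ε hε => ?_⟩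
  obtain ⟨η, hη⟩ : ∃ η : ℝ, η = min κ (ε / (2 * (A + 1))) := ⟨_, rfl⟩
  have hA0 : (0 : ℝ) ≤ A := Nat.cast_nonneg _
  have hη0 : 0 < η := by rw [hη]; exact lt_min hκ (by positivity)
  have hηκ : η ≤ κ := by rw [hη]; exact min_le_left _ _
  have hηA : η * A ≤ ε / 2 := by
    have h1 : η ≤ ε / (2 * (A + 1)) := by rw [hη]; exact min_le_right _ _
    have h2 : η * (A + 1) ≤ ε / 2 := by
      calc η * (A + 1) ≤ ε / (2 * (A + 1)) * (A + 1) := mul_le_mul_of_nonneg_right h1 (by positivity)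
        _ = ε / 2 := by field_simp
    nlinarith
  obtain ⟨κ₁, hκ₁⟩ : ∃ κ₁ : ℝ, κ₁ = 2 * κ - η := ⟨_, rfl⟩
  have hκ₁0 : 0 < κ₁ := by rw [hκ₁]; linarith
  have hκ₁A : κ₁ * A ≤ 1 := by
    rw [hκ₁]
    nlinarith
  obtain ⟨C, hC, hcount⟩ := h κ₁ hκ₁0 hκ₁A ε hε
  obtain ⟨q₀, hq₀⟩ := exists_nat_ge ((2 : ℝ) ^ (2 * κ / η))
  have hqq : ∀ q : ℕ, q₀ ≤ q → 1 ≤ q → (2 * (q : ℝ)) ^ (κ₁ / 2) ≤ (q : ℝ) ^ κ := by
    intro q hq hq1
    have hq0 : (0 : ℝ) < q := by exact_mod_cast hq1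
    have h1 : (2 : ℝ) ^ (2 * κ / η) ≤ q := hq₀.trans (by exact_mod_cast hq)
    have h2 : (2 : ℝ) ^ κ ≤ (q : ℝ) ^ (η / 2) := by
      calc (2 : ℝ) ^ κ = ((2 : ℝ) ^ (2 * κ / η)) ^ (η / 2) := by
            rw [← Real.rpow_mul (by norm_num)]
            congr 1
            field_simp
        _ ≤ _ := Real.rpow_le_rpow (by positivity) h1 (by positivity)
    calc (2 * (q : ℝ)) ^ (κ₁ / 2) = 2 ^ (κ₁ / 2) * (q : ℝ) ^ (κ₁ / 2) := Real.mul_rpow (by norm_num) hq0.le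
      _ ≤ 2 ^ κ * (q : ℝ) ^ (κ₁ / 2) := by
          apply mul_le_mul_of_nonneg_right _ (by positivity)
          exact Real.rpow_le_rpow_of_exponent_le (by norm_num) (by rw [hκ₁]; linarith)
      _ ≤ (q : ℝ) ^ (η / 2) * (q : ℝ) ^ (κ₁ / 2) := mul_le_mul_of_nonneg_right h2 (by positivity)
      _ = (q : ℝ) ^ κ := by
          rw [← Real.rpow_add hq0]
          congr 1
          rw [hκ₁]
          ring
  refine ⟨q₀ + C * 2 ^ (1 - 2 * κ * A + ε), fun Q hQ => ?_⟩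
  have hQ0 : (0 : ℝ) < Q := by exact_mod_cast hQ
  have hQ1 : (1 : ℝ) ≤ Q := by exact_mod_cast hQ
  obtain ⟨T, hT⟩ : ∃ T : ℝ, T = (2 * (Q : ℝ)) ^ (1 / 2 : ℝ) := ⟨_, rfl⟩
  have hT1 : 1 ≤ T := by
    rw [hT]
    exact Real.one_le_rpow (by linarith) (by norm_num)
  obtain ⟨hfin, hcard⟩ := hcount T hT1
  have hsub : {q : ℕ | 1 ≤ q ∧ q ≤ Q ∧ True ∧ ¬ GoodModulus δ κ (c / 2) A q} ⊆
      (range q₀ : Set ℕ) ∪ (fun m : Fin 2 → ℕ => (nm ⟨m 0, m 1⟩).natAbs) ''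
        {m : Fin 2 → ℕ | ¬ SmallSums δ κ₁ c A m ∧ ∀ l, (m l : ℝ) ≤ T} := by
    rintro q ⟨hq1, hqQ, -, hbad⟩
    rcases lt_or_ge q q₀ with hlt | hge
    · left
      exact mem_coe.2 (mem_range.2 hlt)
    · right
      by_contra hcon
      apply hbad
      refine good_of_pairs hκ₁0.le hc hq1 (hqq q hge hq1) fun m hm => ?_
      by_contra hs
      apply hcon
      refine ⟨m, ⟨hs, fun l => ?_⟩, hm⟩
      obtain ⟨-, b2⟩ := norm_max m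
      have hm' : (nm ⟨m 0, m 1⟩).natAbs = q := hm
      rw [hm'] at b2
      have b2' : 3 * ((max (m 0) (m 1) : ℕ) : ℝ) ^ 2 ≤ 4 * q := by exact_mod_cast b2
      have hqQ' : (q : ℝ) ≤ Q := by exact_mod_cast hqQ
      have h1 : (m l : ℝ) ≤ ((max (m 0) (m 1) : ℕ) : ℝ) := by
        have : m l ≤ max (m 0) (m 1) := by
          fin_cases l
          · exact le_max_left _ _
          · exact le_max_right _ _
        exact_mod_cast this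
      have h2 : ((max (m 0) (m 1) : ℕ) : ℝ) ≤ T := by
        rw [hT]
        have h3 : ((max (m 0) (m 1) : ℕ) : ℝ) ^ 2 ≤ 2 * Q := by nlinarith [sq_nonneg ((max (m 0) (m 1) : ℕ) : ℝ)]
        calc ((max (m 0) (m 1) : ℕ) : ℝ) = (((max (m 0) (m 1) : ℕ) : ℝ) ^ 2) ^ (1 / 2 : ℝ) := by
              rw [← Real.rpow_natCast, ← Real.rpow_mul (Nat.cast_nonneg _)]
              norm_num
          _ ≤ _ := Real.rpow_le_rpow (by positivity) h3 (by norm_num)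
      exact h1.trans h2
  have hfin2 : ((range q₀ : Set ℕ) ∪ (fun m : Fin 2 → ℕ => (nm ⟨m 0, m 1⟩).natAbs) ''
        {m : Fin 2 → ℕ | ¬ SmallSums δ κ₁ c A m ∧ ∀ l, (m l : ℝ) ≤ T}).Finite :=
    (finite_toSet _).union (hfin.image _)
  have h1 := (Set.ncard_le_ncard hsub hfin2).trans (Set.ncard_union_le _ _)
  have h2 : ((range q₀ : Set ℕ)).ncard = q₀ := by rw [Set.ncard_coe_finset, card_range]
  have h3 : ((fun m : Fin 2 → ℕ => (nm ⟨m 0, m 1⟩).natAbs) ''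
        {m : Fin 2 → ℕ | ¬ SmallSums δ κ₁ c A m ∧ ∀ l, (m l : ℝ) ≤ T}).ncard ≤
        {m : Fin 2 → ℕ | ¬ SmallSums δ κ₁ c A m ∧ ∀ l, (m l : ℝ) ≤ T}.ncard := Set.ncard_image_le hfin
  rw [h2] at h1
  have h4 : ({q : ℕ | 1 ≤ q ∧ q ≤ Q ∧ True ∧ ¬ GoodModulus δ κ (c / 2) A q}.ncard : ℝ) ≤
      q₀ + C * T ^ (2 - 2 * (κ₁ * A) + ε) := by
    have : ({q : ℕ | 1 ≤ q ∧ q ≤ Q ∧ True ∧ ¬ GoodModulus δ κ (c / 2) A q}.ncard : ℝ) ≤
        q₀ + ({m : Fin 2 → ℕ | ¬ SmallSums δ κ₁ c A m ∧ ∀ l, (m l : ℝ) ≤ T}.ncard : ℝ) := by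
      exact_mod_cast h1.trans (Nat.add_le_add_left h3 _)
    linarith
  have hE0 : 0 ≤ 1 - 2 * κ * A + ε := by linarith
  have h5 : T ^ (2 - 2 * (κ₁ * A) + ε) ≤ (2 * (Q : ℝ)) ^ (1 - 2 * κ * A + ε) := by
    rw [hT, ← Real.rpow_mul (by positivity)]
    apply Real.rpow_le_rpow_of_exponent_le (by linarith)
    rw [hκ₁]
    nlinarith
  have h6 : (2 * (Q : ℝ)) ^ (1 - 2 * κ * A + ε) = 2 ^ (1 - 2 * κ * A + ε) * (Q : ℝ) ^ (1 - 2 * κ * A + ε) :=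
    Real.mul_rpow (by norm_num) hQ0.le
  have h7 : (1 : ℝ) ≤ (Q : ℝ) ^ (1 - 2 * κ * A + ε) := Real.one_le_rpow hQ1 hE0
  calc ({q : ℕ | 1 ≤ q ∧ q ≤ Q ∧ True ∧ ¬ GoodModulus δ κ (c / 2) A q}.ncard : ℝ)
      ≤ q₀ + C * T ^ (2 - 2 * (κ₁ * A) + ε) := h4
    _ ≤ q₀ * (Q : ℝ) ^ (1 - 2 * κ * A + ε) + C * (2 ^ (1 - 2 * κ * A + ε) * (Q : ℝ) ^ (1 - 2 * κ * A + ε)) := by
        apply add_le_add
        · exact le_mul_of_one_le_right (Nat.cast_nonneg _) h7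
        · rw [← h6]
          exact mul_le_mul_of_nonneg_left h5 hC
    _ = _ := by ring

end Pool.Agent.L7h55.CC
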