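import Pool.Agent.L7h55.CC.Mod
import Pool.Agent.L7h55.MK.Ari
import Pool.Agent.N671.DA.Win
import Pool.Agent.N251.LF.Win
import Pool.Agent.R482.ST.Star

/-!
# Windows of moduli all of whose cubic residue symbols have small short sums
-/

set_option autoImplicit false

open Finset Filter

namespace Pool.Agent.L7h55.CC

open Pool.Agent.N918.MS (RandomAndMetric randomAndMetric AlmostAlways)
open Pool.Agent.L7h55.MK (int_of_nat)
open Pool.Agent.N671.DA (Expanding nearG_count NearG)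

/-- a set of natural numbers of exponent at most `s` -/
def ThinN (S : Set ℕ) (s : ℝ) : Prop := ∀ ε : ℝ, 0 < ε → ∃ C : ℝ, ∀ X : ℝ, 1 ≤ X →
  {t : ℕ | t ∈ S ∧ (t : ℝ) ≤ X}.Finite ∧ ({t : ℕ | t ∈ S ∧ (t : ℝ) ≤ X}.ncard : ℝ) ≤ C * X ^ (s + ε)

lemma good_zero (δ κ c : ℝ) (A : ℕ) : GoodModulus δ κ c A 0 := fun h => absurd (dvd_zero 3) h

/-- the exceptional moduli -/
theorem thin_mod {δ : ℝ} (hδ : 0 < δ) (A : ℕ) : ∃ c : ℝ, 0 < c ∧ ∀ κ : ℝ, 0 < κ → 2 * κ * A ≤ 1 →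
    ThinN {q : ℕ | ¬ GoodModulus δ κ c A q} (1 - 2 * κ * A) := by
  obtain ⟨c, hc, h⟩ := mod_count hδ A
  refine ⟨c, hc, fun κ hκ hκA ε hε => ?_⟩
  obtain ⟨C, hC⟩ := h κ hκ hκA ε hε
  refine ⟨C ⊔ 0, fun X hX => ?_⟩
  have hX0 : 0 ≤ X := by linarith
  have hfin : {t : ℕ | t ∈ {q : ℕ | ¬ GoodModulus δ κ c A q} ∧ (t : ℝ) ≤ X}.Finite :=
    (Set.finite_Iic ⌊X⌋₊).subset fun t ht => Nat.le_floor ht.2
  refine ⟨hfin, ?_⟩
  have hX1 : 1 ≤ ⌊X⌋₊ := Nat.le_floor (by exact_mod_cast hX)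
  have hsub : {t : ℕ | t ∈ {q : ℕ | ¬ GoodModulus δ κ c A q} ∧ (t : ℝ) ≤ X} ⊆
      {q : ℕ | 1 ≤ q ∧ q ≤ ⌊X⌋₊ ∧ True ∧ ¬ GoodModulus δ κ c A q} := by
    rintro t ⟨h1, h2⟩
    refine ⟨?_, Nat.le_floor h2, trivial, h1⟩
    by_contra h0
    have : t = 0 := by omega
    rw [this] at h1
    exact h1 (good_zero _ _ _ _)
  have hfin2 : {q : ℕ | 1 ≤ q ∧ q ≤ ⌊X⌋₊ ∧ True ∧ ¬ GoodModulus δ κ c A q}.Finite :=
    (Set.finite_Iic ⌊X⌋₊).subset fun t ht => ht.2.1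
  have h1 : ({t : ℕ | t ∈ {q : ℕ | ¬ GoodModulus δ κ c A q} ∧ (t : ℝ) ≤ X}.ncard : ℝ) ≤
      C * (⌊X⌋₊ : ℝ) ^ (1 - 2 * κ * A + ε) :=
    le_trans (by exact_mod_cast Set.ncard_le_ncard hsub hfin2) (hC ⌊X⌋₊ hX1)
  have hE : 0 ≤ 1 - 2 * κ * A + ε := by linarith
  calc ({t : ℕ | t ∈ {q : ℕ | ¬ GoodModulus δ κ c A q} ∧ (t : ℝ) ≤ X}.ncard : ℝ)
      ≤ C * (⌊X⌋₊ : ℝ) ^ (1 - 2 * κ * A + ε) := h1
    _ ≤ (C ⊔ 0) * (⌊X⌋₊ : ℝ) ^ (1 - 2 * κ * A + ε) := mul_le_mul_of_nonneg_right le_sup_left (by positivity)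
    _ ≤ (C ⊔ 0) * X ^ (1 - 2 * κ * A + ε) := by
        apply mul_le_mul_of_nonneg_left _ le_sup_right
        exact Real.rpow_le_rpow (Nat.cast_nonneg _) (Nat.floor_le hX0) hE

/-- a power saving is a saving of all powers of the logarithm -/
lemma log_save {β K : ℝ} (hβ : β < 1) (U : ℕ) : ∃ X₀ : ℕ, ∀ X : ℕ, X₀ ≤ X → K * (X : ℝ) ^ β ≤ X / Real.log X ^ U := by
  have h1 : Tendsto (fun x : ℝ => Real.log x ^ U / x ^ (1 - β)) atTop (nhds 0) := by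
    have := (isLittleO_log_rpow_rpow_atTop (s := 1 - β) (U : ℝ) (by linarith)).tendsto_div_nhds_zero
    refine this.congr fun x => ?_
    rw [Real.rpow_natCast]
  have h2 := (tendsto_natCast_atTop_atTop (R := ℝ)).eventually
    (h1.eventually_lt_const (show (0 : ℝ) < 1 / (|K| + 1) by positivity))
  obtain ⟨X₀, hX₀⟩ := eventually_atTop.1 (h2.and (eventually_ge_atTop 3))
  refine ⟨X₀, fun X hX => ?_⟩
  obtain ⟨h3, h4⟩ := hX₀ X hX
  have hX0 : (0 : ℝ) < X := by exact_mod_cast (by omega : 0 < X)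
  have hl : 0 < Real.log X := Real.log_pos (by exact_mod_cast (by omega : 1 < X))
  rw [div_lt_iff₀ (by positivity)] at h3
  rw [le_div_iff₀ (by positivity)]
  have hK := abs_nonneg K
  have h5 : (|K| + 1) * Real.log X ^ U ≤ (X : ℝ) ^ (1 - β) := by
    have := mul_le_mul_of_nonneg_left h3.le (show 0 ≤ |K| + 1 by positivity)
    calc (|K| + 1) * Real.log X ^ U ≤ (|K| + 1) * (1 / (|K| + 1) * (X : ℝ) ^ (1 - β)) := this
      _ = _ := by field_simp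
  calc K * (X : ℝ) ^ β * Real.log X ^ U ≤ (|K| + 1) * (X : ℝ) ^ β * Real.log X ^ U := by
        apply mul_le_mul_of_nonneg_right _ (by positivity)
        apply mul_le_mul_of_nonneg_right _ (by positivity)
        linarith [le_abs_self K]
    _ = (X : ℝ) ^ β * ((|K| + 1) * Real.log X ^ U) := by ring
    _ ≤ (X : ℝ) ^ β * (X : ℝ) ^ (1 - β) := mul_le_mul_of_nonneg_left h5 (by positivity)
    _ = X := by
        rw [← Real.rpow_add hX0]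
        norm_num

open scoped Classical in
/-- the integers near which a thin set has a member -/
theorem aa_near {S : Set ℕ} {s : ℝ} (hs : 0 ≤ s) (hS : ThinN S s) {G : ℕ → ℝ} {d : ℝ} (hG : Expanding G d) {θ : ℝ}
    (hθ : 0 ≤ θ) (h1 : d * s + θ < 1) :
    AlmostAlways (fun k : ℤ => ∀ q : ℕ, |(q : ℝ) - G k.natAbs| ≤ (k.natAbs : ℝ) ^ θ → q ∉ S) := by
  intro U
  have hd : 0 < d := by linarith [hG.one_le]
  obtain ⟨ε, hε⟩ : ∃ ε : ℝ, ε = (1 - (d * s + θ)) / (2 * d) := ⟨_, rfl⟩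
  have hε0 : 0 < ε := by rw [hε]; exact div_pos (by linarith) (by linarith)
  have hds : 0 ≤ d * s := by positivity
  obtain ⟨K, hK⟩ := nearG_count S (fun q : ℕ => (q : ℝ)) hG (s := s + ε) (κ := θ) (by linarith) hθ (by linarith)
    (hS ε hε0)
  have hβ : d * (s + ε) + θ < 1 := by
    have : d * ε = (1 - (d * s + θ)) / 2 := by
      rw [hε]
      field_simp
    nlinarith
  obtain ⟨X₀, hX₀⟩ := log_save (K := K) hβ (U + 1)
  refine int_of_nat (Q := fun k : ℕ => ∀ q : ℕ, |(q : ℝ) - G k| ≤ (k : ℝ) ^ θ → q ∉ S) (fun k hk => hk) U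
    ⟨max X₀ 1, fun X hX => ?_⟩
  refine le_trans ?_ ((hK X ((le_max_right _ _).trans hX)).trans (hX₀ X ((le_max_left _ _).trans hX)))
  have hsub : (Icc 1 X).filter (fun k : ℕ => ¬ ∀ q : ℕ, |(q : ℝ) - G k| ≤ (k : ℝ) ^ θ → q ∉ S) ⊆
      (Icc 1 X).filter (fun v => v ∈ NearG S (fun q : ℕ => (q : ℝ)) G θ) := by
    intro k hk
    rw [mem_filter] at hk ⊢
    refine ⟨hk.1, ?_⟩
    have h2 := hk.2
    push Not at h2
    obtain ⟨q, hq1, hq2⟩ := h2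
    exact ⟨q, hq2, hq1⟩
  exact_mod_cast card_le_card hsub

end Pool.Agent.L7h55.CC
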